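import Pool.Agent.Helper21.GH.Dims
import Pool.Agent.Helper67.TR.Cmp

/-!
Project GH, block C5, first part: dimensions of the part of `L` on the kernel of `h` for the full types.
-/

set_option linter.unusedSectionVars false
set_option linter.unusedVariables false

open Matrix Module

namespace GH

open MH

variable {n : Type*} [Fintype n] [DecidableEq n] {L : Submodule ℂ (Matrix n n ℂ)} {h : Matrix n n ℂ}
  {E : ℝ → Matrix n n ℂ} {Λ : Finset ℝ}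

theorem nu_allA21 (G : Gr L h E Λ) (hL : ∀ x : Matrix n n ℂ, x ∈ L) {b : ℕ} {w : Matrix n (Fin b) ℂ}
    (hw : wᴴ * w = 1) (hww : w * wᴴ = E 0) : b ^ 2 ≤ finrank ℂ (KK L E) := by
  have h1 : E 0 * w = w := by rw [← hww, Matrix.mul_assoc, hw, Matrix.mul_one]
  have h2 : wᴴ * E 0 = wᴴ := by rw [← hww, ← Matrix.mul_assoc, hw, Matrix.one_mul]
  let Φ : Matrix (Fin b) (Fin b) ℂ →ₗ[ℂ] KK L E :=
    { toFun := fun y => ⟨w * y * wᴴ, hL _, by
        rw [← Matrix.mul_assoc, ← Matrix.mul_assoc, h1, Matrix.mul_assoc (w * y), h2]⟩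
      map_add' := fun a b => by
        apply Subtype.ext
        show w * (a + b) * wᴴ = w * a * wᴴ + w * b * wᴴ
        rw [Matrix.mul_add, Matrix.add_mul]
      map_smul' := fun c a => by
        apply Subtype.ext
        show w * (c • a) * wᴴ = c • (w * a * wᴴ)
        rw [Matrix.mul_smul, Matrix.smul_mul] }
  have h3 : Function.Injective Φ := by
    intro a a' hab
    have h4 : w * a * wᴴ = w * a' * wᴴ := congrArg Subtype.val hab
    have h5 : ∀ y : Matrix (Fin b) (Fin b) ℂ, wᴴ * (w * y * wᴴ) * w = y := by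
      intro y
      calc wᴴ * (w * y * wᴴ) * w = (wᴴ * w) * y * (wᴴ * w) := by simp only [Matrix.mul_assoc]
        _ = y := by rw [hw, Matrix.one_mul, Matrix.mul_one]
    rw [← h5 a, h4, h5]
  have h4 := LinearMap.finrank_le_finrank_of_injective h3
  rw [Module.finrank_matrix] at h4
  simpa [sq] using h4

theorem nu_all21 (G : Gr L h E Λ) (hL : ∀ x : Matrix n n ℂ, x ∈ L) : (E 0).rank ^ 2 ≤ finrank ℂ (KK L E) := by
  obtain ⟨w, hw, hww⟩ := exists_onbE G.E0_E0 (G.spec.star 0)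
  exact nu_allA21 G hL hw hww

theorem nu_skewA21 (G : Gr L h E Λ) {Q : Matrix n n ℂ} {ε : ℂ} (hε : ε * ε = 1) (hQ : Qᵀ = ε • Q) (hu : IsUnit Q)
    (hL : ∀ x, xᵀ * Q + Q * x = 0 → x ∈ L) (hE : (E 0)ᵀ * Q = Q * E 0) {b : ℕ} (hb : 2 ≤ b)
    {w0 : Matrix n (Fin b) ℂ} (hw0 : w0ᴴ * w0 = 1) (hww0 : w0 * w0ᴴ = E 0) :
    2 * (b - 2) ≤ finrank ℂ (KK L E) := by
  let e : Fin 2 ⊕ Fin (b - 2) ≃ Fin b := finSumFinEquiv.trans (finCongr (by omega))
  set w : Matrix n (Fin 2 ⊕ Fin (b - 2)) ℂ := w0.submatrix id e with hwd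
  have hwH : wᴴ = w0ᴴ.submatrix e id := rfl
  have hw : wᴴ * w = 1 := by
    rw [hwH, hwd, ← Matrix.submatrix_mul _ _ e id e Function.bijective_id, hw0]
    exact Matrix.submatrix_one_equiv e
  have hww : w * wᴴ = E 0 := by
    rw [hwH, hwd, Matrix.submatrix_mul_equiv, hww0]
    exact Matrix.submatrix_id_id _
  have h2 : wᴴ * E 0 = wᴴ := by rw [← hww, ← Matrix.mul_assoc, hw, Matrix.one_mul]
  have hd : IsUnit Q.det := (Matrix.isUnit_iff_isUnit_det Q).1 hu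
  have hQi : Q * Q⁻¹ = 1 := Matrix.mul_nonsing_inv Q hd
  have hiQ : Q⁻¹ * Q = 1 := Matrix.nonsing_inv_mul Q hd
  have hEi : E 0 * Q⁻¹ = Q⁻¹ * (E 0)ᵀ := by
    calc E 0 * Q⁻¹ = (Q⁻¹ * Q) * E 0 * Q⁻¹ := by rw [hiQ, Matrix.one_mul]
      _ = Q⁻¹ * (Q * E 0) * Q⁻¹ := by simp only [Matrix.mul_assoc]
      _ = Q⁻¹ * ((E 0)ᵀ * Q) * Q⁻¹ := by rw [hE]
      _ = Q⁻¹ * (E 0)ᵀ * (Q * Q⁻¹) := by simp only [Matrix.mul_assoc]
      _ = _ := by rw [hQi, Matrix.mul_one]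
  have h3 : (E 0)ᵀ * (wᴴ)ᵀ = (wᴴ)ᵀ := by rw [← Matrix.transpose_mul, h2]
  let y : Matrix (Fin 2) (Fin (b - 2)) ℂ → Matrix (Fin 2 ⊕ Fin (b - 2)) (Fin 2 ⊕ Fin (b - 2)) ℂ :=
    fun C => Matrix.fromBlocks 0 C ((-ε) • Cᵀ) 0
  have hyT : ∀ C, (y C)ᵀ = (-ε) • y C := by
    intro C
    simp only [y, Matrix.fromBlocks_transpose, Matrix.fromBlocks_smul, Matrix.transpose_smul, Matrix.transpose_transpose,
      Matrix.transpose_zero, smul_zero, smul_smul]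
    rw [show -ε * -ε = 1 by rw [← hε]; ring, one_smul]
  let x : Matrix (Fin 2) (Fin (b - 2)) ℂ → Matrix n n ℂ := fun C => Q⁻¹ * ((wᴴ)ᵀ * y C * wᴴ)
  have hQx : ∀ C, Q * x C = (wᴴ)ᵀ * y C * wᴴ := by
    intro C
    show Q * (Q⁻¹ * _) = _
    rw [← Matrix.mul_assoc, hQi, Matrix.one_mul]
  have hxQ : ∀ C, (x C)ᵀ * Q = -((wᴴ)ᵀ * y C * wᴴ) := by
    intro C
    have h4 : (x C)ᵀ * Q = ε • (Q * x C)ᵀ := by
      have h5 : (x C)ᵀ * Q = (Qᵀ * x C)ᵀ := by rw [Matrix.transpose_mul Qᵀ, Matrix.transpose_transpose]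
      rw [h5, hQ, Matrix.smul_mul, Matrix.transpose_smul]
    rw [h4, hQx, Matrix.transpose_mul, Matrix.transpose_mul, Matrix.transpose_transpose, hyT, Matrix.smul_mul,
      Matrix.mul_smul, smul_smul, show ε * -ε = -1 by rw [← hε]; ring, neg_one_smul, Matrix.mul_assoc]
  have hxL : ∀ C, x C ∈ L := fun C => hL _ (by rw [hxQ, hQx, neg_add_cancel])
  have hxE : ∀ C, E 0 * x C * E 0 = x C := by
    intro C
    show E 0 * (Q⁻¹ * ((wᴴ)ᵀ * y C * wᴴ)) * E 0 = Q⁻¹ * ((wᴴ)ᵀ * y C * wᴴ)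
    rw [← Matrix.mul_assoc (E 0), hEi, Matrix.mul_assoc Q⁻¹, ← Matrix.mul_assoc (E 0)ᵀ, ← Matrix.mul_assoc (E 0)ᵀ,
      h3, Matrix.mul_assoc Q⁻¹, Matrix.mul_assoc ((wᴴ)ᵀ * y C), h2]
  let Φ : Matrix (Fin 2) (Fin (b - 2)) ℂ →ₗ[ℂ] KK L E :=
    { toFun := fun C => ⟨x C, hxL C, hxE C⟩
      map_add' := fun a c => by
        apply Subtype.ext
        show Q⁻¹ * ((wᴴ)ᵀ * y (a + c) * wᴴ) = Q⁻¹ * ((wᴴ)ᵀ * y a * wᴴ) + Q⁻¹ * ((wᴴ)ᵀ * y c * wᴴ)
        have h4 : y (a + c) = y a + y c := by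
          simp only [y, Matrix.fromBlocks_add, Matrix.transpose_add, smul_add, add_zero]
        rw [h4, Matrix.mul_add, Matrix.add_mul, Matrix.mul_add]
      map_smul' := fun t a => by
        apply Subtype.ext
        show Q⁻¹ * ((wᴴ)ᵀ * y (t • a) * wᴴ) = t • (Q⁻¹ * ((wᴴ)ᵀ * y a * wᴴ))
        have h4 : y (t • a) = t • y a := by
          simp only [y, Matrix.fromBlocks_smul, Matrix.transpose_smul, smul_zero, smul_comm t]
        rw [h4, Matrix.mul_smul, Matrix.smul_mul, Matrix.mul_smul] }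
  have h5 : Function.Injective Φ := by
    intro a c hac
    have h4 : x a = x c := congrArg Subtype.val hac
    have h6 : ∀ C, wᵀ * (Q * x C) * w = y C := by
      intro C
      rw [hQx]
      calc wᵀ * ((wᴴ)ᵀ * y C * wᴴ) * w = (wᵀ * (wᴴ)ᵀ) * y C * (wᴴ * w) := by simp only [Matrix.mul_assoc]
        _ = y C := by rw [← Matrix.transpose_mul, hw, Matrix.transpose_one, Matrix.one_mul, Matrix.mul_one]
    have h7 : y a = y c := by rw [← h6 a, h4, h6]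
    have h8 := congrArg Matrix.toBlocks₁₂ h7
    simpa [y] using h8
  have h6 := LinearMap.finrank_le_finrank_of_injective h5
  rw [Module.finrank_matrix] at h6
  simpa using h6

theorem nu_skew21 (G : Gr L h E Λ) {Q : Matrix n n ℂ} {ε : ℂ} (hε : ε * ε = 1) (hQ : Qᵀ = ε • Q) (hu : IsUnit Q)
    (hL : ∀ x, xᵀ * Q + Q * x = 0 → x ∈ L) (hE : (E 0)ᵀ * Q = Q * E 0) (hb : 2 ≤ (E 0).rank) :
    2 * ((E 0).rank - 2) ≤ finrank ℂ (KK L E) := by
  obtain ⟨w0, hw0, hww0⟩ := exists_onbE G.E0_E0 (G.spec.star 0)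
  exact nu_skewA21 G hε hQ hu hL hE hb hw0 hww0

/-- the form and the kernel of `h` -/
theorem formE21 (G : Gr L h E Λ) {Q : Matrix n n ℂ} (hu : IsUnit Q) {c : ℂ} (hh : hᵀ * Q + Q * h = c • Q)
    (hlt : (1 - E 0).rank < (E 0).rank) : (E 0)ᵀ * Q = Q * E 0 := by
  have hd : IsUnit Q.det := (Matrix.isUnit_iff_isUnit_det Q).1 hu
  have hhE : ∀ μ, h * E μ = (μ : ℂ) • E μ := G.spec.h_mul
  have hET : ∀ μ, (E μ)ᵀ * hᵀ = (μ : ℂ) • (E μ)ᵀ := by
    intro μ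
    rw [← Matrix.transpose_mul, hhE, Matrix.transpose_smul]
  have key : ∀ μ ν : ℝ, ((μ : ℂ) + ν - c) • ((E μ)ᵀ * Q * E ν) = 0 := by
    intro μ ν
    have h1 : (E μ)ᵀ * (hᵀ * Q + Q * h) * E ν = ((μ : ℂ) + ν) • ((E μ)ᵀ * Q * E ν) := by
      rw [Matrix.mul_add, Matrix.add_mul, ← Matrix.mul_assoc, hET, Matrix.smul_mul, Matrix.smul_mul,
        ← Matrix.mul_assoc (E μ)ᵀ Q h, Matrix.mul_assoc ((E μ)ᵀ * Q) h, hhE, Matrix.mul_smul, add_smul]
    rw [hh, Matrix.mul_smul, Matrix.smul_mul] at h1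
    rw [sub_smul, ← h1, sub_self]
  have hc : c = 0 := by
    by_contra hc
    have h1 : (E 0)ᵀ * Q * E 0 = 0 := by
      have h2 := key 0 0
      rcases smul_eq_zero.1 h2 with h3 | h3
      · exfalso
        apply hc
        simpa using h3
      · exact h3
    have h2 : Q * E 0 = (1 - E 0)ᵀ * (Q * E 0) := by
      rw [Matrix.transpose_sub, Matrix.transpose_one, Matrix.sub_mul, Matrix.one_mul, ← Matrix.mul_assoc, h1, sub_zero]
    have h3 : (Q * E 0).rank ≤ (1 - E 0).rank := by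
      rw [h2]
      refine (Matrix.rank_mul_le_left _ _).trans ?_
      rw [Matrix.rank_transpose]
    rw [Matrix.rank_mul_eq_right_of_isUnit_det Q (E 0) hd] at h3
    omega
  have key0 : ∀ ν : ℝ, ν ≠ 0 → (E 0)ᵀ * Q * E ν = 0 := by
    intro ν hν
    rcases smul_eq_zero.1 (key 0 ν) with h3 | h3
    · exfalso
      apply hν
      rw [hc] at h3
      simpa using h3
    · exact h3
  have key1 : ∀ ν : ℝ, ν ≠ 0 → (E ν)ᵀ * Q * E 0 = 0 := by
    intro ν hν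
    rcases smul_eq_zero.1 (key ν 0) with h3 | h3
    · exfalso
      apply hν
      rw [hc] at h3
      simpa using h3
    · exact h3
  have h1 : (E 0)ᵀ * Q = (E 0)ᵀ * Q * E 0 := by
    conv_lhs => rw [← Matrix.mul_one ((E 0)ᵀ * Q), ← G.spec.sum, Finset.mul_sum]
    by_cases h0 : (0 : ℝ) ∈ Λ
    · exact Finset.sum_eq_single_of_mem _ h0 fun ν _ hν => key0 ν hν
    · rw [G.spec.supp 0 h0]
      simp
  have h2 : Q * E 0 = (E 0)ᵀ * Q * E 0 := by
    have h3 : (1 : Matrix n n ℂ) = ∑ μ ∈ Λ, (E μ)ᵀ := by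
      rw [← Matrix.transpose_sum, G.spec.sum, Matrix.transpose_one]
    conv_lhs => rw [← Matrix.one_mul (Q * E 0), h3, Finset.sum_mul]
    by_cases h0 : (0 : ℝ) ∈ Λ
    · rw [Finset.sum_eq_single_of_mem _ h0 fun ν _ hν => by rw [← Matrix.mul_assoc]; exact key1 ν hν, Matrix.mul_assoc]
    · rw [G.spec.supp 0 h0]
      simp
  rw [h1, h2]

end GH
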