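import Pool.Agent.Helper43.GH.Mach
import Pool.Agent.Helper98.GH.One
import Pool.Agent.Helper98.GH.Skew
import Pool.Agent.Helper58.GH.Dich
import Pool.Agent.Helper47.GH.SStep
import Pool.Agent.Helper45.GH.C3
import Pool.Agent.Helper6.GH.Form
import Pool.Agent.Helper21.GH.Nu

/-!
Project GH, block C5: an irreducible Lie algebra of matrices, closed under the adjoint, with a Hermitian element with an
eigenvalue of large multiplicity is of full type.
-/

set_option linter.unusedSectionVars false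
set_option linter.unusedVariables false

open Matrix Module

namespace GH

open MH

variable {n : Type*} [Fintype n] [DecidableEq n] {L : Submodule ℂ (Matrix n n ℂ)} {h : Matrix n n ℂ}
  {E : ℝ → Matrix n n ℂ} {Λ : Finset ℝ}

theorem all_of_sl21 (hn : 0 < Fintype.card n) (h1 : (1 : Matrix n n ℂ) ∈ L)
    (hs : ∀ x : Matrix n n ℂ, x.trace = 0 → x ∈ L) (x : Matrix n n ℂ) : x ∈ L := by
  have hc : (Fintype.card n : ℂ) ≠ 0 := by exact_mod_cast hn.ne'
  have h2 : x = (x - (x.trace / Fintype.card n) • (1 : Matrix n n ℂ)) + (x.trace / Fintype.card n) • (1 : Matrix n n ℂ) := by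
    abel
  rw [h2]
  refine L.add_mem (hs _ ?_) (L.smul_mem _ h1)
  rw [Matrix.trace_sub, Matrix.trace_smul, Matrix.trace_one, smul_eq_mul, div_mul_cancel₀ _ hc, sub_self]

theorem fam_one21 (h1 : (1 : Matrix n n ℂ) ∈ L)
    (irr : ∀ T : Matrix n n ℂ, (∀ x ∈ L, T * x = x * T) → ∃ c : ℂ, T = c • (1 : Matrix n n ℂ)) :
    Fam L (fun _ : Unit => (1 : Matrix n n ℂ)) where
  mul := fun i j => by simp
  star := fun _ => Matrix.conjTranspose_one
  sum := by simp
  mem := fun _ => h1
  cen := fun _ x _ => by simp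
  com := fun T hT => by
    obtain ⟨c, hc⟩ := irr T hT
    exact ⟨fun _ => c, by simpa using hc⟩

theorem four_one21 (h4 : 4 ≤ finrank ℂ (KK L E)) : Four L E (fun _ : Unit => (1 : Matrix n n ℂ)) := by
  intro _
  have h1 : (KK L E).map (LinearMap.mulLeft ℂ (1 : Matrix n n ℂ)) = KK L E := by
    rw [LinearMap.mulLeft_one, Submodule.map_id]
  show 4 ≤ finrank ℂ ((KK L E).map (LinearMap.mulLeft ℂ (1 : Matrix n n ℂ)))
  rw [h1]
  exact h4

/-- C5: GST. `L` contains the scalars, `h` is shifted such that the large eigenvalue is 0. -/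
theorem gst (G : Gr L h E Λ) (h1 : (1 : Matrix n n ℂ) ∈ L) (hE : E 0 ≠ 1)
    (hr : (1 - E 0).rank ≤ 1 ∨ ((1 - E 0).rank + 1) ^ 2 ≤ Fintype.card n) (h3 : 3 ≤ Fintype.card n)
    (hS : ∀ T : Matrix n n ℂ, (∀ s ∈ L, Dg s → Sm s → T * s = s * T) → ∃ c : ℂ, T = c • (1 : Matrix n n ℂ)) :
    Good L h E Λ := by
  have irr : ∀ T : Matrix n n ℂ, (∀ x ∈ L, T * x = x * T) → ∃ c : ℂ, T = c • (1 : Matrix n n ℂ) :=
    fun T hT => hS T fun s hs _ _ => hT s hs
  have hcard := card_rank G
  set r := (1 - E 0).rank with hrd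
  set b := (E 0).rank with hbd
  have hr1 : 1 ≤ r := by
    by_contra h0
    have h5 : (1 - E 0).rank = 0 := by omega
    apply hE
    exact (sub_eq_zero.1 (rank_eq_zero98 h5)).symm
  have nr : ∀ T : Matrix n n ℂ, T * h = h * T → (∀ ν : ℝ, ν ≠ 0 → ∀ x ∈ Ld L h ν, T * x = x * T) →
      ∃ c : ℂ, T = c • (1 : Matrix n n ℂ) := by
    intro T hT hT'
    refine G.sstep irr hE ?_ hT hT'
    intro T hT
    refine hS T fun s hs hd hsm => hT s hs hd ?_
    obtain ⟨c, hc⟩ := hsm
    refine ⟨c, ?_⟩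
    rw [← hrd]
    set q := (s - c • (1 : Matrix n n ℂ)).rank with hq
    rcases hr with h5 | h5 <;> rcases hc with h6 | h6
    · nlinarith
    · nlinarith
    · nlinarith
    · by_contra hcon
      push Not at hcon
      have h7 : (r * q + r + q + 1) ^ 2 ≤ Fintype.card n ^ 2 := by
        calc (r * q + r + q + 1) ^ 2 = (r + 1) ^ 2 * (q + 1) ^ 2 := by ring
          _ ≤ Fintype.card n * Fintype.card n := Nat.mul_le_mul h5 h6
          _ = _ := by ring
      have h8 : r * q + r + q + 1 ≤ Fintype.card n := by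
        by_contra h9
        push Not at h9
        have := Nat.pow_lt_pow_left h9 (n := 2) (by norm_num)
        omega
      omega
  have hd0 := G.dim_zero
  rw [← hrd] at hd0
  -- the linear case
  have slcase : (∀ x : Matrix n n ℂ, x.trace = 0 → x ∈ L) → r ^ 2 + 3 ≤ b ^ 2 → Good L h E Λ := by
    intro hsl hb
    have h5 := nu_all21 G (all_of_sl21 (by omega) h1 hsl)
    rw [← hbd] at h5
    exact ⟨G, h1, Or.inl hsl, nr, hE, Or.inl hsl, by omega⟩
  rcases Nat.lt_or_ge r 2 with h5 | h5
  · refine slcase (fun x hx => G.one_sl irr hE (by omega) hx) ?_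
    have h6 : r = 1 := by omega
    have h7 : 2 ≤ b := by omega
    rw [h6]
    nlinarith
  · have hr2 : (r + 1) ^ 2 ≤ Fintype.card n := by
      rcases hr with h6 | h6
      · omega
      · exact h6
    have hb : r ^ 2 + r + 1 ≤ b := by nlinarith
    have h4 : 4 ≤ finrank ℂ (KK L E) := G.dims irr hE hr2
    have F := fam_one21 h1 irr
    have h44 := four_one21 (E := E) h4
    have U := G.unit F h44
    have S0 := G.span0 F h44 U
    have hk : ∀ T, Ck L E T → ∃ c : ℂ, T = c • E 0 := by
      intro T hT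
      obtain ⟨T', h6, _, h7, h8⟩ := G.mach F h44 hT
      obtain ⟨c, hc⟩ := nr T' h7 h8
      refine ⟨c, ?_⟩
      rw [← h6, hc, Matrix.smul_mul, Matrix.one_mul]
    rcases G.dich U hk (by omega) with ha | ⟨Q, hQ0, hQ1, hQ2, hQ3⟩
    · refine slcase (fun x hx => G.sl S0 hE ha hx) ?_
      nlinarith
    · obtain ⟨B, hB1, hB2, hB3, hB4⟩ := G.form h1 irr h4 hQ1 hQ2 hQ3
      have hty : Ty L := by
        refine G.skew S0 U hE nr hk h4 (B := B) (by rw [hB1]; exact hQ0) (by rw [hB1, hB2]) hB3 hB4 ?_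
        intro z hz
        have e1 : zᵀ * B = zᵀ * Q := by
          conv_lhs => rw [← G.KK_left hz, Matrix.transpose_mul, Matrix.mul_assoc, hB2]
        have e2 : B * z = Q * z := by
          conv_lhs => rw [← G.KK_left hz, ← Matrix.mul_assoc, hB1]
        rw [e1, e2, hQ3 z hz]
      rcases hty with hsl | ⟨Q', hs', hu, hsk, hsc⟩
      · refine slcase hsl ?_
        nlinarith
      · obtain ⟨c, hc⟩ := hsc h G.mem
        have hEQ := formE21 G hu hc (by rw [← hrd, ← hbd]; nlinarith)
        have h6 : 2 * (b - 2) ≤ finrank ℂ (KK L E) := by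
          rcases hs' with h7 | h7
          · exact nu_skew21 G (ε := 1) (by norm_num) (by rw [one_smul]; exact h7) hu hsk hEQ (by rw [← hbd]; nlinarith)
          · exact nu_skew21 G (ε := -1) (by norm_num) (by rw [neg_one_smul]; exact h7) hu hsk hEQ
              (by rw [← hbd]; nlinarith)
        have h7 : r ^ 2 + 3 ≤ 2 * (b - 2) := by
          have h8 : 2 ≤ b := by nlinarith
          obtain ⟨b', hb'⟩ := Nat.exists_eq_add_of_le h8
          rw [hb'] at hb ⊢
          have : 2 + b' - 2 = b' := by omega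
          rw [this]
          nlinarith
        exact ⟨G, h1, Or.inr ⟨Q', hs', hu, hsk, hsc⟩, nr, hE, Or.inr (by nlinarith), by omega⟩

end GH
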