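import Pool.Agent.Helper43.GH.Bas
import Pool.Agent.Helper21.MH.Lev0

/-!
Project GH, block B: the Casimir count. If the kernel of `h` has dimension `b` and the rank `r` of `h` satisfies
`(r + 1) ^ 2 ≤ b + r`, the elements of `L` that live on the kernel form a space of dimension at least four.
-/

set_option linter.unusedSectionVars false
set_option linter.unusedVariables false

open Matrix Module

namespace GH

open MH

variable {n : Type*} [Fintype n] [DecidableEq n] {L : Submodule ℂ (Matrix n n ℂ)} {h : Matrix n n ℂ}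
  {E : ℝ → Matrix n n ℂ} {Λ : Finset ℝ}

/-- the elements of degree zero embed into the endomorphisms of the image of `h`, up to `KK` -/
theorem Gr.dim_zero (G : Gr L h E Λ) : finrank ℂ (Ld L h 0) ≤ (1 - E 0).rank ^ 2 + finrank ℂ (KK L E) := by
  classical
  have S := G.spec
  have hZZ : E 0 * E 0 = E 0 := by rw [S.mul, if_pos rfl]
  obtain ⟨P, hP⟩ : ∃ P : Matrix n n ℂ, P = 1 - E 0 := ⟨_, rfl⟩
  rw [← hP]
  have hPP : P * P = P := by
    rw [hP]
    have : (1 - E 0) * (1 - E 0) = 1 - E 0 - E 0 + E 0 * E 0 := by noncomm_ring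
    rw [this, hZZ]
    abel
  set R : Submodule ℂ (n → ℂ) := LinearMap.range P.mulVecLin with hR
  let S1 : Submodule ℂ (Matrix n n ℂ) :=
    { carrier := {y | P * y = y ∧ y * P = y}
      add_mem' := fun {a b} ha hb => ⟨by rw [mul_add, ha.1, hb.1], by rw [add_mul, ha.2, hb.2]⟩
      zero_mem' := ⟨mul_zero _, zero_mul _⟩
      smul_mem' := fun c a ha => ⟨by rw [mul_smul_comm, ha.1], by rw [smul_mul_assoc, ha.2]⟩ }
  have hS1 : finrank ℂ S1 ≤ P.rank ^ 2 := by
    let Φ : S1 →ₗ[ℂ] (R →ₗ[ℂ] R) :=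
      { toFun := fun x =>
          { toFun := fun v => ⟨(x : Matrix n n ℂ) *ᵥ v, by
              have h1 := x.2.1
              have h2 : (x : Matrix n n ℂ) *ᵥ v = P *ᵥ ((x : Matrix n n ℂ) *ᵥ v) := by
                rw [Matrix.mulVec_mulVec, h1]
              rw [h2]
              exact ⟨_, rfl⟩⟩
            map_add' := fun v w => Subtype.ext (Matrix.mulVec_add _ _ _)
            map_smul' := fun c v => Subtype.ext (Matrix.mulVec_smul _ _ _) }
        map_add' := fun x y => LinearMap.ext fun v => Subtype.ext (Matrix.add_mulVec _ _ _)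
        map_smul' := fun c x => LinearMap.ext fun v => Subtype.ext (Matrix.smul_mulVec _ _ _) }
    have hinj : Function.Injective Φ := by
      rw [injective_iff_map_eq_zero]
      intro x hx
      apply Subtype.ext
      apply Matrix.ext_of_mulVec_single
      intro i
      have h6 := LinearMap.congr_fun hx ⟨P *ᵥ Pi.single i 1, ⟨_, rfl⟩⟩
      have h7 : (x : Matrix n n ℂ) *ᵥ (P *ᵥ Pi.single i 1) = 0 := congrArg Subtype.val h6
      rw [Matrix.mulVec_mulVec, x.2.2] at h7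
      rw [h7]
      exact (Matrix.zero_mulVec _).symm
    have h1 := LinearMap.finrank_le_finrank_of_injective hinj
    rw [Module.finrank_linearMap] at h1
    rw [sq]
    exact h1
  let f : Ld L h 0 →ₗ[ℂ] Matrix n n ℂ := (LinearMap.mulLeft ℂ P).comp (Ld L h 0).subtype
  have hf : ∀ x : Ld L h 0, f x = P * (x : Matrix n n ℂ) := fun x => rfl
  have h1 := f.finrank_range_add_finrank_ker
  have hcomm : ∀ x ∈ Ld L h 0, P * x = x * P := by
    intro x hx
    rw [hP, sub_mul, mul_sub, one_mul, mul_one, G.E0_comm hx]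
  have h2 : finrank ℂ (LinearMap.range f) ≤ P.rank ^ 2 := by
    refine le_trans (Submodule.finrank_mono ?_) hS1
    rintro y ⟨x, rfl⟩
    rw [hf]
    refine ⟨by rw [← mul_assoc, hPP], ?_⟩
    rw [hcomm x x.2, mul_assoc, hPP]
  have h3 : finrank ℂ (LinearMap.ker f) ≤ finrank ℂ (KK L E) := by
    have h4 : finrank ℂ ((LinearMap.ker f).map (Ld L h 0).subtype) = finrank ℂ (LinearMap.ker f) :=
      LinearEquiv.finrank_eq (Submodule.equivMapOfInjective _ (Submodule.subtype_injective _) _).symm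
    rw [← h4]
    refine Submodule.finrank_mono ?_
    rintro y ⟨x, hx, rfl⟩
    rw [SetLike.mem_coe, LinearMap.mem_ker, hf] at hx
    refine ⟨x.2.1, ?_⟩
    show E 0 * (x : Matrix n n ℂ) * E 0 = x
    have e1 : E 0 * (x : Matrix n n ℂ) = x := by
      rw [hP, sub_mul, one_mul] at hx
      exact (sub_eq_zero.1 hx).symm
    rw [e1, ← G.E0_comm x.2, e1]
  omega

/-- the sum of the positive and the negative part and the part of degree zero -/
theorem Gr.split (G : Gr L h E Λ) {x : Matrix n n ℂ} (hx : x ∈ L) :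
    ∃ u ∈ Lup L E, ∃ z ∈ Lze L E, ∃ d ∈ Ldo L E, x = u + z + d := by
  classical
  have S := G.spec
  set Δ := (Λ ×ˢ Λ).image (fun p => p.1 - p.2) with hΔ
  have gen : ∀ (p : ℝ → Prop) [DecidablePred p], (∑ ν ∈ Δ.filter p, cmp E Λ ν x) ∈ LR L E (fun μ ν => p (μ - ν)) := by
    intro p _
    refine ⟨L.sum_mem fun ν _ => G.cmp_mem hx ν, fun μ ν hn => ?_⟩
    rw [Finset.mul_sum, Finset.sum_mul]
    refine Finset.sum_eq_zero fun κ hκ => ?_
    rw [S.block_cmp, if_neg]
    intro h1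
    have h2 := (Finset.mem_filter.1 hκ).2
    rw [← h1] at h2
    exact hn h2
  have mono : ∀ {R R' : ℝ → ℝ → Prop}, (∀ μ ν, R μ ν → R' μ ν) → ∀ y ∈ LR L E R, y ∈ LR L E R' := by
    intro R R' h1 y hy
    exact ⟨hy.1, fun μ ν h2 => hy.2 μ ν fun h3 => h2 (h1 μ ν h3)⟩
  refine ⟨∑ ν ∈ Δ.filter (fun ν => 0 < ν), cmp E Λ ν x, mono (fun μ ν h1 => by linarith) _ (gen (fun ν => 0 < ν)),
    ∑ ν ∈ Δ.filter (fun ν => ν = 0), cmp E Λ ν x, mono (fun μ ν h1 => by linarith) _ (gen (fun ν => ν = 0)),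
    ∑ ν ∈ Δ.filter (fun ν => ν < 0), cmp E Λ ν x, mono (fun μ ν h1 => by linarith) _ (gen (fun ν => ν < 0)), ?_⟩
  conv_lhs => rw [S.sum_cmp x]
  rw [Finset.sum_filter, Finset.sum_filter, Finset.sum_filter, ← Finset.sum_add_distrib, ← Finset.sum_add_distrib]
  refine Finset.sum_congr rfl fun ν _ => ?_
  rcases lt_trichotomy ν 0 with h1 | h1 | h1
  · rw [if_neg (not_lt.2 h1.le), if_neg h1.ne, if_pos h1, zero_add, zero_add]
  · rw [if_neg (by rw [h1]; exact lt_irrefl _), if_pos h1, if_neg (by rw [h1]; exact lt_irrefl _), zero_add,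
      add_zero]
  · rw [if_pos h1, if_neg h1.ne', if_neg (not_lt.2 h1.le), add_zero, add_zero]

theorem Gr.star_up (G : Gr L h E Λ) {x : Matrix n n ℂ} (hx : x ∈ Lup L E) : xᴴ ∈ Ldo L E :=
  ⟨G.st _ hx.1, G.spec.star_Bl (fun _ _ h => h) hx.2⟩

theorem Gr.star_do (G : Gr L h E Λ) {x : Matrix n n ℂ} (hx : x ∈ Ldo L E) : xᴴ ∈ Lup L E :=
  ⟨G.st _ hx.1, G.spec.star_Bl (fun _ _ h => h) hx.2⟩

theorem Gr.ze_Ld (G : Gr L h E Λ) {x : Matrix n n ℂ} : x ∈ Lze L E ↔ x ∈ Ld L h 0 := by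
  constructor
  · intro hx
    refine G.Ld_of_block hx.1 fun μ μ' hne => hx.2 μ μ' fun h1 => hne ?_
    rw [h1, sub_self]
  · intro hx
    refine ⟨hx.1, fun μ μ' hne => G.Ld_block hx fun h1 => hne ?_⟩
    linarith

/-- a stable subspace is trivial -/
theorem Gr.stable (G : Gr L h E Λ)
    (irr : ∀ T : Matrix n n ℂ, (∀ x ∈ L, T * x = x * T) → ∃ c : ℂ, T = c • (1 : Matrix n n ℂ))
    (W : Submodule ℂ (n → ℂ)) (hW : ∀ x ∈ L, ∀ v ∈ W, x *ᵥ v ∈ W) : W = ⊥ ∨ W = ⊤ := by
  obtain ⟨T, h1, h2, h3, h4⟩ := proj W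
  obtain ⟨c, hc⟩ := irr T fun x hx => h4 x (hW x hx) (hW _ (G.st x hx))
  rcases eq_or_ne T 0 with h0 | h0
  · left
    rw [eq_bot_iff]
    intro v hv
    rw [h3, h0, Matrix.zero_mulVec] at hv
    rw [← hv]
    exact Submodule.zero_mem _
  · right
    rw [eq_top_iff]
    intro v _
    have hcc : c * c = c := by
      have h5 : (c * c - c) • (1 : Matrix n n ℂ) = 0 := by
        have h6 := h1
        rw [hc, smul_mul_smul_comm, mul_one] at h6
        rw [sub_smul, h6, sub_self]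
      rcases smul_eq_zero.1 h5 with h6 | h6
      · exact sub_eq_zero.1 h6
      · exfalso
        apply h0
        rw [hc, h6, smul_zero]
    have hc0 : c ≠ 0 := by
      rintro rfl
      exact h0 (by rw [hc, zero_smul])
    have hc1 : c = 1 := mul_left_cancel₀ hc0 (by rw [hcc, mul_one])
    rw [h3, hc, hc1, one_smul, Matrix.one_mulVec]

/-- no vector of the kernel of `h` is killed by all raising elements -/
theorem Gr.killed (G : Gr L h E Λ)
    (irr : ∀ T : Matrix n n ℂ, (∀ x ∈ L, T * x = x * T) → ∃ c : ℂ, T = c • (1 : Matrix n n ℂ))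
    (hP0 : Pp E Λ ≠ 0) {v : n → ℂ} (hv : E 0 *ᵥ v = v)
    (hk : ∀ x ∈ Lup L E, x *ᵥ v = 0) : v = 0 := by
  classical
  have S := G.spec
  set P := Pp E Λ with hP
  have hPP : P * P = P := S.sum_mul_sum _
  have e0 : E 0 = ∑ μ ∈ ({0} : Finset ℝ), E μ := by rw [Finset.sum_singleton]
  let Wset : Set (Submodule ℂ (n → ℂ)) := {W | v ∈ W ∧ ∀ y ∈ LR L E (fun μ ν => μ ≤ ν), ∀ w ∈ W, y *ᵥ w ∈ W}
  set W : Submodule ℂ (n → ℂ) := sInf Wset with hWdef
  have hvW : v ∈ W := (Submodule.mem_sInf).2 fun U hU => hU.1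
  have hst : ∀ y ∈ LR L E (fun μ ν => μ ≤ ν), ∀ w ∈ W, y *ᵥ w ∈ W := by
    intro y hy w hw
    refine (Submodule.mem_sInf).2 fun U hU => ?_
    exact hU.2 y hy w ((Submodule.mem_sInf).1 hw U hU)
  have hsplit : ∀ y ∈ L, ∃ a ∈ Lup L E, ∃ b ∈ LR L E (fun μ ν => μ ≤ ν), y = a + b := by
    intro y hy
    obtain ⟨a, ha, b, hb, c, hc, e⟩ := G.split hy
    refine ⟨a, ha, b + c, (LR L E _).add_mem ⟨hb.1, fun μ ν h1 => hb.2 μ ν fun h2 => h1 (le_of_eq h2)⟩
      ⟨hc.1, fun μ ν h1 => hc.2 μ ν fun h2 => h1 (le_of_lt h2)⟩, ?_⟩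
    rw [e]
    abel
  let W' : Submodule ℂ (n → ℂ) :=
    { carrier := {w | w ∈ W ∧ ∀ x ∈ Lup L E, x *ᵥ w ∈ W}
      add_mem' := fun {a b} ha hb => ⟨W.add_mem ha.1 hb.1, fun x hx => by
        rw [Matrix.mulVec_add]; exact W.add_mem (ha.2 x hx) (hb.2 x hx)⟩
      zero_mem' := ⟨W.zero_mem, fun x _ => by rw [Matrix.mulVec_zero]; exact W.zero_mem⟩
      smul_mem' := fun c a ha => ⟨W.smul_mem c ha.1, fun x hx => by
        rw [Matrix.mulVec_smul]; exact W.smul_mem c (ha.2 x hx)⟩ }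
  have hW' : W ≤ W' := by
    refine sInf_le ⟨⟨hvW, fun x hx => by rw [hk x hx]; exact W.zero_mem⟩, ?_⟩
    rintro y hy w ⟨hw, hw'⟩
    refine ⟨hst y hy w hw, fun x hx => ?_⟩
    obtain ⟨a, ha, b, hb, e⟩ := hsplit _ (G.br x hx.1 y hy.1)
    have e1 : x *ᵥ (y *ᵥ w) = y *ᵥ (x *ᵥ w) + (a *ᵥ w + b *ᵥ w) := by
      rw [← Matrix.add_mulVec, ← e, Matrix.sub_mulVec, Matrix.mulVec_mulVec, Matrix.mulVec_mulVec]
      abel
    rw [e1]
    exact W.add_mem (hst y hy _ (hw' x hx)) (W.add_mem (hw' a ha) (hst b hb w hw))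
  have hWs : ∀ x ∈ L, ∀ w ∈ W, x *ᵥ w ∈ W := by
    intro x hx w hw
    obtain ⟨a, ha, b, hb, e⟩ := hsplit x hx
    rw [e, Matrix.add_mulVec]
    exact W.add_mem ((hW' hw).2 a ha) (hst b hb w hw)
  have hWk : W ≤ LinearMap.ker P.mulVecLin := by
    refine sInf_le ⟨?_, ?_⟩
    · rw [LinearMap.mem_ker, Matrix.mulVecLin_apply, ← hv, Matrix.mulVec_mulVec]
      have : P * E 0 = 0 := by
        rw [hP]
        unfold Pp
        rw [Finset.sum_mul]
        refine Finset.sum_eq_zero fun μ hμ => ?_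
        rw [S.mul, if_neg (Finset.mem_filter.1 hμ).2.ne']
      rw [this, Matrix.zero_mulVec]
    · intro y hy w hw
      rw [LinearMap.mem_ker, Matrix.mulVecLin_apply] at hw ⊢
      have z2 : P * y * E 0 = 0 := by
        rw [e0, hP]
        unfold Pp
        refine hy.2.sum_zero fun μ hμ ν hν => ?_
        have := (Finset.mem_filter.1 hμ).2
        rw [Finset.mem_singleton.1 hν]
        exact not_le.2 this
      have z4 : P * y * Qn E Λ = 0 := by
        rw [hP]
        unfold Pp Qn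
        refine hy.2.sum_zero fun μ hμ ν hν => ?_
        have h2 := (Finset.mem_filter.1 hν).2
        have h3 := (Finset.mem_filter.1 hμ).2
        exact not_le.2 (h2.trans h3)
      have h1 : P * y = P * y * P := by
        have h2 : P * y = P * y * (P + E 0 + Qn E Λ) := by rw [hP, S.one_eq, mul_one]
        conv_lhs => rw [h2]
        rw [mul_add, mul_add, z2, z4, add_zero, add_zero]
      rw [Matrix.mulVec_mulVec, h1, ← Matrix.mulVec_mulVec, hw, Matrix.mulVec_zero]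
  rcases G.stable irr W hWs with h1 | h1
  · rw [h1] at hvW
    exact (Submodule.mem_bot ℂ).1 hvW
  · exfalso
    apply hP0
    apply Matrix.ext_of_mulVec_single
    intro i
    have h2 : Pi.single i (1 : ℂ) ∈ W := by rw [h1]; exact Submodule.mem_top
    have h3 := hWk h2
    rw [LinearMap.mem_ker, Matrix.mulVecLin_apply] at h3
    rw [h3, Matrix.zero_mulVec]

theorem Gr.rank_zero_up (G : Gr L h E Λ)
    (irr : ∀ T : Matrix n n ℂ, (∀ x ∈ L, T * x = x * T) → ∃ c : ℂ, T = c • (1 : Matrix n n ℂ))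
    (hP0 : Pp E Λ ≠ 0) : (E 0).rank ≤ finrank ℂ (Lup L E) * (Pp E Λ).rank := by
  classical
  have S := G.spec
  set P := Pp E Λ with hP
  have hPP : P * P = P := S.sum_mul_sum _
  have e0 : E 0 = ∑ μ ∈ ({0} : Finset ℝ), E μ := by rw [Finset.sum_singleton]
  have hZZ : E 0 * E 0 = E 0 := by rw [S.mul, if_pos rfl]
  set R : Submodule ℂ (n → ℂ) := LinearMap.range P.mulVecLin with hR
  set R0 : Submodule ℂ (n → ℂ) := LinearMap.range (E 0).mulVecLin with hR0
  have hfix : ∀ v ∈ R0, E 0 *ᵥ v = v := by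
    rintro v ⟨u, rfl⟩
    rw [Matrix.mulVecLin_apply, Matrix.mulVec_mulVec, hZZ]
  have hmem : ∀ x ∈ Lup L E, ∀ v ∈ R0, x *ᵥ v ∈ R := by
    intro x hx v hv
    have z2 : E 0 * x * E 0 = 0 := hx.2 0 0 (lt_irrefl _)
    have z4 : Qn E Λ * x * E 0 = 0 := by
      rw [e0]
      unfold Qn
      refine hx.2.sum_zero fun μ hμ ν hν => ?_
      have h3 := (Finset.mem_filter.1 hμ).2
      rw [Finset.mem_singleton.1 hν]
      exact not_lt.2 h3.le
    have h1 : x * E 0 = P * (x * E 0) := by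
      have h2 : x * E 0 = (P + E 0 + Qn E Λ) * (x * E 0) := by rw [hP, S.one_eq, one_mul]
      rw [h2, add_mul, add_mul, ← mul_assoc (E 0), z2, ← mul_assoc (Qn E Λ), z4, add_zero, add_zero, ← mul_assoc P P,
        hPP]
    rw [← hfix v hv, Matrix.mulVec_mulVec, h1, ← Matrix.mulVec_mulVec]
    exact ⟨_, rfl⟩
  let Φ : R0 →ₗ[ℂ] (Lup L E →ₗ[ℂ] R) :=
    { toFun := fun v =>
        { toFun := fun x => ⟨(x : Matrix n n ℂ) *ᵥ v, hmem x x.2 v v.2⟩
          map_add' := fun x y => Subtype.ext (Matrix.add_mulVec _ _ _)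
          map_smul' := fun c x => Subtype.ext (Matrix.smul_mulVec _ _ _) }
      map_add' := fun v w => LinearMap.ext fun x => Subtype.ext (Matrix.mulVec_add _ _ _)
      map_smul' := fun c v => LinearMap.ext fun x => Subtype.ext (Matrix.mulVec_smul _ _ _) }
  have hinj : Function.Injective Φ := by
    rw [injective_iff_map_eq_zero]
    intro v hv
    apply Subtype.ext
    refine G.killed irr hP0 (hfix v v.2) fun x hx => ?_
    have h1 := LinearMap.congr_fun hv ⟨x, hx⟩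
    exact congrArg Subtype.val h1
  have h1 := LinearMap.finrank_le_finrank_of_injective hinj
  rw [Module.finrank_linearMap] at h1
  exact h1

/-- the same data for `-h` -/
theorem Gr.neg (G : Gr L h E Λ) : Gr L (-h) (fun μ => E (-μ)) (Λ.image fun μ => -μ) := by
  classical
  have S := G.spec
  have hinj : ∀ x ∈ Λ, ∀ y ∈ Λ, -x = -y → x = y := fun x _ y _ hxy => neg_injective hxy
  refine ⟨⟨fun μ => S.star _, ?_, ?_, ?_, ?_⟩, G.br, G.st, L.neg_mem G.mem⟩
  · intro μ ν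
    rw [S.mul]
    simp only [neg_inj]
  · intro μ hμ
    refine S.supp _ fun h1 => hμ ?_
    exact Finset.mem_image.2 ⟨-μ, h1, neg_neg μ⟩
  · rw [Finset.sum_image hinj]
    simp only [neg_neg]
    exact S.sum
  · rw [Finset.sum_image hinj]
    simp only [neg_neg]
    conv_lhs => rw [S.eq]
    rw [← Finset.sum_neg_distrib]
    refine Finset.sum_congr rfl fun μ _ => ?_
    rw [← neg_smul]
    push_cast
    rfl

theorem rank_proj_le (G : Gr L h E Λ) (A : Finset ℝ) (hA : (0 : ℝ) ∉ A) :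
    (∑ μ ∈ A, E μ).rank ≤ (1 - E 0).rank := by
  have S := G.spec
  have h1 : (1 - E 0) * ∑ μ ∈ A, E μ = ∑ μ ∈ A, E μ := by
    rw [sub_mul, one_mul, Finset.mul_sum, Finset.sum_eq_zero (f := fun μ => E 0 * E μ), sub_zero]
    intro μ hμ
    rw [S.mul, if_neg]
    rintro rfl
    exact hA hμ
  calc (∑ μ ∈ A, E μ).rank = ((1 - E 0) * ∑ μ ∈ A, E μ).rank := by rw [h1]
    _ ≤ (1 - E 0).rank := Matrix.rank_mul_le_left _ _

/-- the kernel of `h` is small compared with the raising elements -/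
theorem Gr.rank_zero_le (G : Gr L h E Λ)
    (irr : ∀ T : Matrix n n ℂ, (∀ x ∈ L, T * x = x * T) → ∃ c : ℂ, T = c • (1 : Matrix n n ℂ))
    (hE : E 0 ≠ 1) : (E 0).rank ≤ finrank ℂ (Lup L E) * (1 - E 0).rank := by
  classical
  have S := G.spec
  by_cases hP0 : Pp E Λ = 0
  · have hQ0 : Qn E Λ ≠ 0 := by
      intro h1
      have h2 := S.one_eq
      rw [hP0, h1, zero_add, add_zero] at h2
      exact hE h2
    have G' := G.neg
    have e1 : Pp (fun μ => E (-μ)) (Λ.image fun μ => -μ) = Qn E Λ := by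
      unfold Pp Qn
      refine Finset.sum_bij' (fun μ _ => -μ) (fun μ _ => -μ) ?_ ?_ ?_ ?_ ?_
      · intro μ hμ
        rw [Finset.mem_filter] at hμ ⊢
        obtain ⟨κ, hκ, e⟩ := Finset.mem_image.1 hμ.1
        rw [← e, neg_neg]
        refine ⟨hκ, ?_⟩
        have := hμ.2
        rw [← e] at this
        linarith
      · intro μ hμ
        rw [Finset.mem_filter] at hμ ⊢
        exact ⟨Finset.mem_image.2 ⟨μ, hμ.1, rfl⟩, by linarith [hμ.2]⟩
      · intro μ _
        exact neg_neg μ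
      · intro μ _
        exact neg_neg μ
      · intro μ _
        rfl
    have e2 : Lup L (fun μ => E (-μ)) = Ldo L E := by
      ext x
      constructor
      · rintro ⟨h1, h2⟩
        refine ⟨h1, fun μ ν hne => ?_⟩
        have h3 := h2 (-μ) (-ν) (fun h4 => hne (by linarith))
        simp only [neg_neg] at h3
        exact h3
      · rintro ⟨h1, h2⟩
        exact ⟨h1, fun μ ν hne => h2 (-μ) (-ν) (fun h4 => hne (by linarith))⟩
    have e3 : finrank ℂ (Ldo L E) = finrank ℂ (Lup L E) := by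
      obtain ⟨x, hx⟩ := exists_onb (Lup L E)
      have hx' : ONB (Ldo L E) (fun a => (x a)ᴴ) :=
        hx.star' (fun y hy => G.star_up hy) (fun y hy => G.star_do hy)
      obtain ⟨y, hy⟩ := exists_onb (Ldo L E)
      have h1 := hx'.indep_nrm hy LinearMap.id
      simp only [LinearMap.id_apply] at h1
      rw [Finset.sum_congr rfl fun a _ => hx'.nrm_one a, Finset.sum_congr rfl fun a _ => hy.nrm_one a] at h1
      simp only [Finset.sum_const, Finset.card_univ, Fintype.card_fin, nsmul_eq_mul, mul_one] at h1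
      exact_mod_cast h1.symm
    have h1 := G'.rank_zero_up irr (by rw [e1]; exact hQ0)
    rw [e1, e2, e3] at h1
    simp only [neg_zero] at h1
    refine le_trans h1 (Nat.mul_le_mul_left _ ?_)
    exact rank_proj_le G _ fun h2 => lt_irrefl _ (Finset.mem_filter.1 h2).2
  · refine le_trans (G.rank_zero_up irr hP0) (Nat.mul_le_mul_left _ ?_)
    exact rank_proj_le G _ fun h2 => lt_irrefl _ (Finset.mem_filter.1 h2).2

/-- the Casimir inequality -/
theorem Gr.casimir_le (G : Gr L h E Λ)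
    (irr : ∀ T : Matrix n n ℂ, (∀ x ∈ L, T * x = x * T) → ∃ c : ℂ, T = c • (1 : Matrix n n ℂ)) :
    (2 * finrank ℂ (Lup L E) + finrank ℂ (Ld L h 0) : ℝ) * (E 0).rank ≤
      Fintype.card n * (finrank ℂ (Lup L E) + finrank ℂ (Ld L h 0)) := by
  classical
  have S := G.spec
  have hZZ : E 0 * E 0 = E 0 := by rw [S.mul, if_pos rfl]
  have hZs : (E 0)ᴴ = E 0 := S.star 0
  obtain ⟨x, hx⟩ := exists_onb (Lup L E)
  obtain ⟨w, hw⟩ := exists_onb (Ld L h 0)
  have hx' : ONB (Ldo L E) (fun a => (x a)ᴴ) :=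
    hx.star' (fun y hy => G.star_up hy) (fun y hy => G.star_do hy)
  have hud : ONB (Lup L E ⊔ Ldo L E) (Sum.elim x (fun a => (x a)ᴴ)) := by
    refine hx.union hx' le_sup_left le_sup_right ?_ ?_
    · intro a ha b hb
      exact S.hs_zero ha.2 hb.2 fun μ ν h1 => by have := h1.1; have := h1.2; linarith
    · intro y hy
      obtain ⟨a, ha, b, hb, e⟩ := Submodule.mem_sup.1 hy
      exact ⟨a, ha, b, hb, e.symm⟩
  have hle : Lup L E ⊔ Ldo L E ≤ L := sup_le (fun a ha => ha.1) (fun a ha => ha.1)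
  have hL : ONB L (Sum.elim (Sum.elim x (fun a => (x a)ᴴ)) w) := by
    refine hud.union hw hle (fun a ha => ha.1) ?_ ?_
    · intro y hy b hb
      obtain ⟨a, ha, a', ha', e⟩ := Submodule.mem_sup.1 hy
      have hb' := G.ze_Ld.2 hb
      rw [← e, hs_add_left,
        S.hs_zero ha.2 hb'.2 (fun μ ν h1 => by have := h1.1; have := h1.2; linarith),
        S.hs_zero ha'.2 hb'.2 (fun μ ν h1 => by have := h1.1; have := h1.2; linarith), add_zero]
    · intro y hy
      obtain ⟨a, ha, b, hb, c, hc, e⟩ := G.split hy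
      refine ⟨a + c, Submodule.add_mem_sup ha hc, b, G.ze_Ld.1 hb, ?_⟩
      rw [e]
      abel
  have hT := hL.trace_eq G.br G.st irr hZZ hZs (trace_eq_rank hZZ)
  rw [Fintype.sum_sum_type, Fintype.sum_sum_type] at hT
  simp only [Sum.elim_inl, Sum.elim_inr] at hT
  have hcard : (Fintype.card ((Fin (finrank ℂ (Lup L E)) ⊕ Fin (finrank ℂ (Lup L E))) ⊕ Fin (finrank ℂ (Ld L h 0))) : ℝ) =
      2 * finrank ℂ (Lup L E) + finrank ℂ (Ld L h 0) := by
    simp only [Fintype.card_sum, Fintype.card_fin]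
    push_cast
    ring
  rw [hcard] at hT
  rw [← hT]
  refine mul_le_mul_of_nonneg_left ?_ (by positivity)
  have hdec : ∀ y : Matrix n n ℂ, nrm y = nrm (E 0 * y) + nrm ((1 - E 0) * y) := by
    intro y
    have h1 : (y : Matrix n n ℂ) = E 0 * y + (1 - E 0) * y := by rw [sub_mul, one_mul]; abel
    have h2 : hs (E 0 * y) ((1 - E 0) * y) = 0 := by
      unfold MH.hs
      have h3 : (E 0 * y)ᴴ * ((1 - E 0) * y) = 0 := by
        rw [Matrix.conjTranspose_mul, hZs]
        have h4 : yᴴ * E 0 * ((1 - E 0) * y) = yᴴ * (E 0 - E 0 * E 0) * y := by noncomm_ring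
        rw [h4, hZZ, sub_self, mul_zero, zero_mul]
      rw [h3, Matrix.trace_zero]
    conv_lhs => rw [h1]
    rw [nrm_add, h2, Complex.zero_re, mul_zero, add_zero]
  have hu : ∀ a, nrm (E 0 * x a) + nrm (E 0 * (x a)ᴴ) ≤ 1 := by
    intro a
    have h1 : E 0 * x a * E 0 = 0 := (hx.mem a).2 0 0 (lt_irrefl _)
    have h2 : nrm (E 0 * (x a)ᴴ) = nrm (x a * E 0) := by
      rw [← nrm_star, Matrix.conjTranspose_mul, Matrix.conjTranspose_conjTranspose, hZs]
    have h3 : nrm (x a * E 0) ≤ nrm ((1 - E 0) * x a) := by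
      have h4 : x a * E 0 = (1 - E 0) * x a * E 0 := by
        rw [sub_mul, sub_mul, one_mul, h1, sub_zero]
      have h5 := hdec ((1 - E 0) * x a)ᴴ
      rw [nrm_star] at h5
      have h6 : nrm (E 0 * ((1 - E 0) * x a)ᴴ) = nrm ((1 - E 0) * x a * E 0) := by
        rw [← nrm_star, Matrix.conjTranspose_mul, Matrix.conjTranspose_conjTranspose, hZs]
      rw [h4, ← h6]
      have h7 := nrm_nonneg ((1 - E 0) * ((1 - E 0) * x a)ᴴ)
      linarith
    have h4 := hdec (x a)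
    rw [hx.nrm_one a] at h4
    rw [h2]
    linarith
  have hw1 : ∀ a, nrm (E 0 * w a) ≤ 1 := by
    intro a
    have h4 := hdec (w a)
    rw [hw.nrm_one a] at h4
    have h7 := nrm_nonneg ((1 - E 0) * w a)
    linarith
  have s1 : ∑ a, nrm (E 0 * x a) + ∑ a, nrm (E 0 * (x a)ᴴ) ≤ finrank ℂ (Lup L E) := by
    rw [← Finset.sum_add_distrib]
    refine le_trans (Finset.sum_le_sum fun a _ => hu a) ?_
    simp
  have s2 : ∑ a, nrm (E 0 * w a) ≤ finrank ℂ (Ld L h 0) := by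
    refine le_trans (Finset.sum_le_sum fun a _ => hw1 a) ?_
    simp
  linarith

theorem card_rank (G : Gr L h E Λ) : Fintype.card n = (E 0).rank + (1 - E 0).rank := by
  have S := G.spec
  have hZZ : E 0 * E 0 = E 0 := by rw [S.mul, if_pos rfl]
  have hPP : (1 - E 0) * (1 - E 0) = 1 - E 0 := by
    have : (1 - E 0) * (1 - E 0) = 1 - E 0 - E 0 + E 0 * E 0 := by noncomm_ring
    rw [this, hZZ]
    abel
  have h1 := trace_eq_rank hPP
  have h2 := trace_eq_rank hZZ
  rw [Matrix.trace_sub, Matrix.trace_one, h2] at h1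
  have h3 : ((Fintype.card n : ℕ) : ℂ) = (((E 0).rank + (1 - E 0).rank : ℕ) : ℂ) := by
    push_cast
    rw [← h1]
    ring
  exact_mod_cast h3

/-- **The Casimir count.** -/
theorem Gr.dims (G : Gr L h E Λ) (irr : ∀ T : Matrix n n ℂ, (∀ x ∈ L, T * x = x * T) → ∃ c : ℂ, T = c • (1 : Matrix n n ℂ))
    (hE : E 0 ≠ 1) (hr : ((1 - E 0).rank + 1) ^ 2 ≤ Fintype.card n) : 4 ≤ finrank ℂ (KK L E) := by
  have h1 := G.casimir_le irr
  have h2 := G.rank_zero_le irr hE
  have h3 := G.dim_zero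
  have h4 := card_rank G
  have hr1 : 1 ≤ (1 - E 0).rank := by
    by_contra hcon
    have h5 : (1 - E 0).rank = 0 := by omega
    have h6 : LinearMap.range (1 - E 0 : Matrix n n ℂ).mulVecLin = ⊥ := Submodule.finrank_eq_zero.1 h5
    have h7 : (1 - E 0 : Matrix n n ℂ) = 0 := by
      apply Matrix.ext_of_mulVec_single
      intro i
      have h8 : (1 - E 0 : Matrix n n ℂ) *ᵥ Pi.single i 1 ∈ LinearMap.range (1 - E 0 : Matrix n n ℂ).mulVecLin :=
        ⟨_, rfl⟩
      rw [h6, Submodule.mem_bot] at h8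
      rw [h8, Matrix.zero_mulVec]
    exact hE (sub_eq_zero.1 h7).symm
  by_contra hk
  obtain ⟨r, hrd⟩ : ∃ r, r = (1 - E 0).rank := ⟨_, rfl⟩
  obtain ⟨b, hb⟩ : ∃ b, b = (E 0).rank := ⟨_, rfl⟩
  obtain ⟨d, hd⟩ : ∃ d, d = finrank ℂ (Lup L E) := ⟨_, rfl⟩
  obtain ⟨l, hl⟩ : ∃ l, l = finrank ℂ (Ld L h 0) := ⟨_, rfl⟩
  obtain ⟨κ, hκ⟩ : ∃ κ, κ = finrank ℂ (KK L E) := ⟨_, rfl⟩
  rw [h4] at h1 hr
  rw [← hrd, ← hb, ← hd] at h2
  rw [← hrd, ← hl, ← hκ] at h3
  rw [← hrd, ← hb] at hr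
  rw [← hrd] at hr1
  rw [← hrd, ← hb, ← hd, ← hl] at h1
  rw [← hκ] at hk
  have k3 : (κ : ℝ) ≤ 3 := by
    have : κ ≤ 3 := by omega
    exact_mod_cast this
  have H1 : (2 * d + l : ℝ) * b ≤ (b + r) * (d + l) := by
    push_cast at h1
    exact h1
  have H2 : (b : ℝ) ≤ d * r := by exact_mod_cast h2
  have H3 : (l : ℝ) ≤ r ^ 2 + κ := by exact_mod_cast h3
  have H4 : ((r : ℝ) + 1) ^ 2 ≤ b + r := by exact_mod_cast hr
  have H5 : (1 : ℝ) ≤ r := by exact_mod_cast hr1
  -- `d (b - r) ≤ r l`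
  have H6 : (d : ℝ) * (b - r) ≤ r * l := by nlinarith
  have H7 : (0 : ℝ) ≤ b - r := by nlinarith
  have H8 : (b : ℝ) * (b - r) ≤ r * (d * (b - r)) := by nlinarith
  have H9 : (b : ℝ) * (b - r) ≤ r ^ 2 * (r ^ 2 + 3) := by
    have a1 : (r : ℝ) * (d * (b - r)) ≤ r * (r * l) := mul_le_mul_of_nonneg_left H6 (by linarith)
    have a2 : (r : ℝ) * (r * l) ≤ r ^ 2 * (r ^ 2 + 3) := by
      have a3 : (l : ℝ) ≤ r ^ 2 + 3 := by linarith
      have a4 := mul_le_mul_of_nonneg_left a3 (by positivity : (0 : ℝ) ≤ r ^ 2)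
      calc (r : ℝ) * (r * l) = r ^ 2 * l := by ring
        _ ≤ _ := a4
    linarith
  have H10 : (r : ℝ) ^ 2 + r + 1 ≤ b := by nlinarith
  have H11 : ((r : ℝ) ^ 2 + r + 1) * (r ^ 2 + 1) ≤ b * (b - r) := by
    apply mul_le_mul H10 (by linarith) (by positivity) (by linarith [sq_nonneg (r : ℝ)])
  nlinarith [mul_nonneg (sq_nonneg (r : ℝ)) (by linarith : (0 : ℝ) ≤ (r : ℝ) - 1)]

end GH
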